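import Pool.Agent.Helper19.TW.Final
import Pool.Agent.Helper19.TW.Rules
import Pool.Agent.Helper8.TW.Flip

namespace Pool.Agent.Results.MP_e2cee0_nt.EvenTwists

open Pool.Agent.Helper19.TW

/-- The binary form of degree 14 of Mestre and of Stewart and Top: two points of the curve
`F(u,v) y² = x³ + a x + b` are known for all `u`, `v`. -/
def F (a b u v : ℤ) : ℤ :=
  -(a * b) * (u ^ 2 + v ^ 2) *
    (b ^ 2 * (u ^ 4 + u ^ 2 * v ^ 2 + v ^ 4) ^ 3 + a ^ 3 * u ^ 4 * v ^ 4 * (u ^ 2 + v ^ 2) ^ 2)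

/-- Let `E : y² = x³ + a x + b` have no rational 2-torsion and `j ≠ 0, 1728`.  If the three real
roots exist, or `E` has multiplicative reduction at a prime other than `2, 3, 5, 11`, or one value
of `F` has sign `1`, then at least `c D^(1/7) / log D` fundamental discriminants `d`, `|d| ≤ D`,
have `w(d) = 1` and `rank E_d(ℚ) ≥ 2`. -/
theorem result (a b : ℤ) (ha : a ≠ 0) (hb : b ≠ 0) (hroot : ∀ r : ℚ, r ^ 3 + a * r + b ≠ 0)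
    (M : ℕ) (hM : 1 ≤ M) (w : ℤ → ℤ) (hw : TwistRules M w)
    (h : 4 * a ^ 3 + 27 * b ^ 2 < 0 ∨
      (∃ q : ℕ, q.Prime ∧ 7 ≤ q ∧ q ≠ 11 ∧ q ∣ M ∧ ¬ q ^ 2 ∣ M ∧ ¬ (q : ℤ) ∣ a ∧
        (q : ℤ) ∣ 4 * a ^ 3 + 27 * b ^ 2) ∨
      ∃ u v : ℤ, F a b u v ≠ 0 ∧ w (F a b u v) = 1) :
    ∃ c : ℝ, 0 < c ∧ ∃ D₀ : ℝ, ∀ D : ℝ, D₀ ≤ D →
      c * D ^ (1 / 7 : ℝ) / Real.log D ≤
        (Set.ncard {d : ℤ | |(d : ℝ)| ≤ D ∧ IsFund d ∧ w d = 1 ∧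
          2 ≤ Module.rank ℤ (tw a b d).toAffine.Point} : ℝ) := by
  have hr : RootLike M w := hw.rootLike
  have hex : ∃ u v : ℤ, FF a b u v ≠ 0 ∧ w (FF a b u v) = 1 := by
    by_cases hneg : 4 * a ^ 3 + 27 * b ^ 2 < 0
    · exact base ha hb hneg hM hr
    rcases h with h | h | h
    · exact absurd h hneg
    · obtain ⟨q, hq, h7, h11, hqM, hq2, hqa, hqD⟩ := h
      have hpos : 0 < 4 * a ^ 3 + 27 * b ^ 2 :=
        lt_of_le_of_ne (not_lt.1 hneg) (Ne.symm (disc_ne ha hroot))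
      obtain ⟨M', h1, h2, h3⟩ := hw.at_prime hM hq (by omega) hqM hq2
      exact Pool.Agent.Helper8.TW.flip hq h7 h11 h1 h2 hqa hb hqD hpos hw.pm h3
    · exact h
  obtain ⟨c, hc, D₀, H⟩ := main ha hb hroot hM hr hex
  refine ⟨c, hc, D₀, fun D hD => ?_⟩
  have := H D hD
  have hset : {d : ℤ | d ∈ Good a b w ∧ |(d : ℝ)| ≤ D} =
      {d : ℤ | |(d : ℝ)| ≤ D ∧ IsFund d ∧ w d = 1 ∧
          2 ≤ Module.rank ℤ (tw a b d).toAffine.Point} := by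
    ext d
    constructor
    · rintro ⟨⟨h1, h2, h3⟩, h4⟩; exact ⟨h4, h1, h2, h3⟩
    · rintro ⟨h4, h1, h2, h3⟩; exact ⟨⟨h1, h2, h3⟩, h4⟩
  rwa [hset] at this

end Pool.Agent.Results.MP_e2cee0_nt.EvenTwists
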