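import Pool.Agent.Helper33.TW.ConicFinal
import Pool.Agent.Helper19.TW.Rules

namespace Pool.Agent.Results.MP_e2cee0_nt.EvenTwistsConic

open Pool.Agent.Helper19.TW

/-- Let `f = x³ + a x + b` have no rational root and take one value at two different rational
numbers (equivalently: `-a ≠ 0` is a norm from `ℚ(√-3)`; for `E : y² = f(x)` this says that
`j (j - 1728) ≠ 0` is such a norm).  If `f` has three real roots, or `E` has multiplicative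
reduction at a prime `q ≥ 11`, or one `d` with two points `(x₁, y)`, `(x₂, y)`, `x₁ ≠ x₂`, on
`d y² = f(x)` has sign `1`, then at least `c D^(1/4) / log D` fundamental discriminants `d`,
`|d| ≤ D`, have `w(d) = 1` and `rank E_d(ℚ) ≥ 2`. -/
theorem result (a b : ℤ) (hroot : ∀ r : ℚ, r ^ 3 + a * r + b ≠ 0)
    (hpair : ∃ x₁ x₂ : ℚ, x₁ ≠ x₂ ∧ x₁ ^ 3 + a * x₁ + b = x₂ ^ 3 + a * x₂ + b)
    (M : ℕ) (hM : 1 ≤ M) (w : ℤ → ℤ) (hw : TwistRules M w)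
    (h : 4 * a ^ 3 + 27 * b ^ 2 < 0 ∨
      (∃ q : ℕ, q.Prime ∧ 11 ≤ q ∧ q ∣ M ∧ ¬ q ^ 2 ∣ M ∧ ¬ (q : ℤ) ∣ a ∧
        (q : ℤ) ∣ 4 * a ^ 3 + 27 * b ^ 2) ∨
      ∃ (d : ℤ) (x₁ x₂ y : ℚ), w d = 1 ∧ x₁ ≠ x₂ ∧ d * y ^ 2 = x₁ ^ 3 + a * x₁ + b ∧
        d * y ^ 2 = x₂ ^ 3 + a * x₂ + b) :
    ∃ c : ℝ, 0 < c ∧ ∃ D₀ : ℝ, ∀ D : ℝ, D₀ ≤ D →
      c * D ^ (1 / 4 : ℝ) / Real.log D ≤
        (Set.ncard {d : ℤ | |(d : ℝ)| ≤ D ∧ IsFund d ∧ w d = 1 ∧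
          2 ≤ Module.rank ℤ (tw a b d).toAffine.Point} : ℝ) := by
  have hr : RootLike M w := hw.rootLike
  obtain ⟨c, hc, D₀, H⟩ := Pool.Agent.Helper33.TW.mainB hroot hpair hM hr (by
    rcases h with h | ⟨q, hq, h11, hqM, hq2, hqa, hqD⟩ | h
    · exact Or.inl h
    · obtain ⟨M', h1, h2, h3⟩ := hw.at_prime hM hq (by omega) hqM hq2
      exact Or.inr (Or.inl ⟨q, M', hq, h11, h1, h2, hqa, hqD, h3⟩)
    · exact Or.inr (Or.inr h))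
  refine ⟨c, hc, D₀, fun D hD => ?_⟩
  have := H D hD
  have hset : {d : ℤ | d ∈ Good a b w ∧ |(d : ℝ)| ≤ D} =
      {d : ℤ | |(d : ℝ)| ≤ D ∧ IsFund d ∧ w d = 1 ∧
          2 ≤ Module.rank ℤ (tw a b d).toAffine.Point} := by
    ext d
    constructor
    · rintro ⟨⟨h1, h2, h3⟩, h4⟩; exact ⟨h4, h1, h2, h3⟩
    · rintro ⟨h4, h1, h2, h3⟩; exact ⟨⟨h1, h2, h3⟩, h4⟩
  rwa [hset] at this

end Pool.Agent.Results.MP_e2cee0_nt.EvenTwistsConic
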