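import Pool.Agent.Helper6.T6.FinalP
import Pool.Agent.Helper6.T6.Sgn
import Pool.Agent.Helper6.T6.Flip
import Pool.Agent.Helper19.TW.Rules

namespace Pool.Agent.Results.MP_e2cee0_nt.EvenTwistsSixth

open Pool.Agent.Helper19.TW

/-- A binary form of degree 12: two points of the curve `F(u,v) y² = x³ + a x + b` are known for
all `u`, `v`. -/
def F (a b u v : ℤ) : ℤ :=
  a * b * (b ^ 2 * (3 * u ^ 2 + v ^ 2) ^ 3 * (u ^ 2 - v ^ 2) ^ 3 +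
    4 * a ^ 3 * u ^ 4 * (u ^ 2 + v ^ 2) ^ 4)

/-- Let `E : y² = x³ + a x + b` have no rational 2-torsion and `j ≠ 0, 1728`.  If there is only one
real 2-torsion point, or `E` has multiplicative reduction at a prime other than `2, 3, 11`, or one
value of `F` has sign `1`, then for every `ε > 0` and all large `D` at least `D^(1/6-ε)` fundamental
discriminants `d`, `|d| ≤ D`, have `w(d) = 1` and `rank E_d(ℚ) ≥ 2`. -/
theorem result (a b : ℤ) (ha : a ≠ 0) (hb : b ≠ 0) (hroot : ∀ r : ℚ, r ^ 3 + a * r + b ≠ 0)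
    (M : ℕ) (hM : 1 ≤ M) (w : ℤ → ℤ) (hw : TwistRules M w)
    (h : 0 < 4 * a ^ 3 + 27 * b ^ 2 ∨
      (∃ q : ℕ, q.Prime ∧ 5 ≤ q ∧ q ≠ 11 ∧ q ∣ M ∧ ¬ q ^ 2 ∣ M ∧ ¬ (q : ℤ) ∣ a ∧
        (q : ℤ) ∣ 4 * a ^ 3 + 27 * b ^ 2) ∨
      ∃ u v : ℤ, F a b u v ≠ 0 ∧ w (F a b u v) = 1) (ε : ℝ) (hε : 0 < ε) :
    ∃ D₀ : ℝ, ∀ D : ℝ, D₀ ≤ D → D ^ (1 / 6 - ε : ℝ) ≤
      (Set.ncard {d : ℤ | |(d : ℝ)| ≤ D ∧ IsFund d ∧ w d = 1 ∧
          2 ≤ Module.rank ℤ (tw a b d).toAffine.Point} : ℝ) := by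
  have hr : RootLike M w := hw.rootLike
  have hex : ∃ u v : ℤ, Pool.Agent.Helper6.T6.F12 a b u v ≠ 0 ∧
      w (Pool.Agent.Helper6.T6.F12 a b u v) = 1 := by
    by_cases hpos : 0 < 4 * a ^ 3 + 27 * b ^ 2
    · exact Pool.Agent.Helper6.T6.base12 ha hb hpos hM hr
    rcases h with h | h | h
    · exact absurd h hpos
    · obtain ⟨q, hq, h5, h11, hqM, hq2, hqa, hqD⟩ := h
      have hneg : 4 * a ^ 3 + 27 * b ^ 2 < 0 :=
        lt_of_le_of_ne (not_lt.1 hpos) (disc_ne ha hroot)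
      obtain ⟨M', h1, h2, h3⟩ := hw.at_prime hM hq (by omega) hqM hq2
      exact Pool.Agent.Helper6.T6.flip12 hq h5 h11 h1 h2 hqa hb hqD hneg hw.pm h3
    · exact h
  exact Pool.Agent.Helper6.T6.main12_all ha hb hroot hM hr hex ε hε

end Pool.Agent.Results.MP_e2cee0_nt.EvenTwistsSixth
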