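import Pool.Agent.Helper19.TC.Final
import Pool.Agent.Helper19.TW.Rules
import Pool.Agent.Helper33.TC.FlipC
import Pool.Agent.Helper33.TC.SignC

namespace Pool.Agent.Results.MP_e2cee0_nt.EvenTwistsTorsion

open Pool.Agent.Helper19.TW

/-- The sextic form attached to `x³ + a x + b` and its root `e`: two points of the curve
`F(u,v) y² = x³ + a x + b` are known for all `u`, `v`. -/
def F (a e u v : ℤ) : ℤ :=
  -(3 * e) * (u ^ 2 + v ^ 2) *
    ((3 * e ^ 2 + a) * (u ^ 2 + v ^ 2) ^ 2 - 9 * e ^ 2 * u ^ 2 * v ^ 2)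

/-- Let `E : y² = x³ + a x + b` have the rational 2-torsion point `(e, 0)`, `e ≠ 0`.  If `e` is the
smallest or the largest of three real roots, or `E` has multiplicative reduction at a prime
`q ≥ 7`, or one value of `F` has sign `1`, then at least `c D^(1/3) / log D` fundamental
discriminants `d`, `|d| ≤ D`, have `w(d) = 1` and `rank E_d(ℚ) ≥ 2`. -/
theorem result (a b e : ℤ) (he : e ≠ 0) (hroot : e ^ 3 + a * e + b = 0)
    (hD : 4 * a ^ 3 + 27 * b ^ 2 ≠ 0) (M : ℕ) (hM : 1 ≤ M) (w : ℤ → ℤ) (hw : TwistRules M w)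
    (h : (4 * a ^ 3 + 27 * b ^ 2 < 0 ∧ 0 < 3 * e ^ 2 + a) ∨
      (∃ q : ℕ, q.Prime ∧ 7 ≤ q ∧ q ∣ M ∧ ¬ q ^ 2 ∣ M ∧ ¬ (q : ℤ) ∣ a ∧
        (q : ℤ) ∣ 4 * a ^ 3 + 27 * b ^ 2) ∨
      ∃ u v : ℤ, F a e u v ≠ 0 ∧ w (F a e u v) = 1) :
    ∃ c : ℝ, 0 < c ∧ ∃ D₀ : ℝ, ∀ D : ℝ, D₀ ≤ D →
      c * D ^ (1 / 3 : ℝ) / Real.log D ≤
        (Set.ncard {d : ℤ | |(d : ℝ)| ≤ D ∧ IsFund d ∧ w d = 1 ∧
          2 ≤ Module.rank ℤ (tw a b d).toAffine.Point} : ℝ) := by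
  have hr : RootLike M w := hw.rootLike
  have hdisc := Pool.Agent.Helper19.TC.disc_c hroot
  have hd1 : 3 * e ^ 2 + a ≠ 0 := by
    intro h0
    apply hD
    rw [hdisc, h0]; ring
  have hd2 : 3 * e ^ 2 + 4 * a ≠ 0 := by
    intro h0
    apply hD
    rw [hdisc, h0]; ring
  have hex : ∃ u v : ℤ, Pool.Agent.Helper19.TC.FC a e u v ≠ 0 ∧
      w (Pool.Agent.Helper19.TC.FC a e u v) = 1 := by
    by_cases hneg : 0 < 3 * e ^ 2 + a ∧ 3 * e ^ 2 + 4 * a < 0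
    · exact Pool.Agent.Helper33.TC.baseC he hneg.1 hneg.2 hM hr
    rcases h with h | h | h
    · exfalso
      apply hneg
      refine ⟨h.2, ?_⟩
      have h1 := h.1
      rw [hdisc] at h1
      by_contra hc
      push Not at hc
      have := mul_nonneg (sq_nonneg (3 * e ^ 2 + a)) hc
      linarith
    · obtain ⟨q, hq, h7, hqM, hq2, hqa, hqD⟩ := h
      obtain ⟨M', h1, h2, h3⟩ := hw.at_prime hM hq (by omega) hqM hq2
      have hqI : Prime (q : ℤ) := Nat.prime_iff_prime_int.1 hq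
      have hqe : ¬ (q : ℤ) ∣ e := by
        intro hqe
        have hqb : (q : ℤ) ∣ b := by
          have e1 : b = -(e * (e ^ 2 + a)) := by linear_combination hroot
          rw [e1]
          exact (dvd_neg).2 (Dvd.dvd.mul_right hqe _)
        have h4 : (q : ℤ) ∣ 4 * a ^ 3 := by
          have := dvd_sub hqD (Dvd.dvd.mul_left (Dvd.dvd.mul_right hqb b) 27)
          have e1 : 4 * a ^ 3 + 27 * b ^ 2 - 27 * (b * b) = 4 * a ^ 3 := by ring
          rwa [e1] at this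
        rcases hqI.dvd_or_dvd h4 with h5 | h5
        · have := Int.le_of_dvd (by norm_num) h5
          omega
        · exact hqa (hqI.dvd_of_dvd_pow h5)
      have hq3 : (q : ℤ) ∣ (3 * e ^ 2 + a) * (3 * e ^ 2 + 4 * a) := by
        rw [hdisc, pow_two, mul_assoc] at hqD
        rcases hqI.dvd_or_dvd hqD with h5 | h5
        · exact Dvd.dvd.mul_right h5 _
        · exact h5
      exact Pool.Agent.Helper33.TC.flipC hq h7 h1 h2 hqe hq3 hd1 hd2 hw.pm h3 hneg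
    · exact h
  obtain ⟨c, hc, D₀, H⟩ := Pool.Agent.Helper19.TC.mainC hroot he hd1 hd2 hM hr hex
  refine ⟨c, hc, D₀, fun D hDD => ?_⟩
  have := H D hDD
  have hset : {d : ℤ | d ∈ Good a b w ∧ |(d : ℝ)| ≤ D} =
      {d : ℤ | |(d : ℝ)| ≤ D ∧ IsFund d ∧ w d = 1 ∧
          2 ≤ Module.rank ℤ (tw a b d).toAffine.Point} := by
    ext d
    constructor
    · rintro ⟨⟨h1, h2, h3⟩, h4⟩; exact ⟨h4, h1, h2, h3⟩
    · rintro ⟨h4, h1, h2, h3⟩; exact ⟨⟨h1, h2, h3⟩, h4⟩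
  rwa [hset] at this

end Pool.Agent.Results.MP_e2cee0_nt.EvenTwistsTorsion
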